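import Pool.Agent.H14.GP.Defs

/-! Module D of MP_40d375_an: splitting a Blaschke sequence into two comparable halves. -/

set_option autoImplicit false

open Complex Metric Set Filter Topology ComplexConjugate MeasureTheory

namespace Pool.Agent.H14.GP

namespace SplitAux

section alt

variable {L : Type*} [LinearOrder L]

/-- Alternating sum of `g` over a finite subset of a linear order. -/
noncomputable def altS (g : L → ℝ) (S : Finset L) : ℝ :=
  ∑ i ∈ S, (-1 : ℝ) ^ (S.filter (· < i)).card * g i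

lemma altS_union {g : L → ℝ} {S T : Finset L} (h : ∀ a ∈ S, ∀ b ∈ T, a < b) :
    altS g (S ∪ T) = altS g S + (-1) ^ S.card * altS g T := by
  have hd : Disjoint S T := by
    rw [Finset.disjoint_left]
    intro a ha hb
    exact lt_irrefl _ (h a ha a hb)
  unfold altS
  rw [Finset.sum_union hd, Finset.mul_sum]
  congr 1
  · refine Finset.sum_congr rfl fun i hi => ?_
    congr 3
    ext j
    simp only [Finset.mem_filter, Finset.mem_union]
    constructor
    · rintro ⟨h1 | h1, h2⟩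
      · exact ⟨h1, h2⟩
      · exact absurd (h i hi j h1) (not_lt.mpr h2.le)
    · rintro ⟨h1, h2⟩
      exact ⟨Or.inl h1, h2⟩
  · refine Finset.sum_congr rfl fun i hi => ?_
    have h1 : (S ∪ T).filter (· < i) = S ∪ T.filter (· < i) := by
      ext j
      simp only [Finset.mem_filter, Finset.mem_union]
      constructor
      · rintro ⟨h1 | h1, h2⟩
        · exact Or.inl h1
        · exact Or.inr ⟨h1, h2⟩
      · rintro (h1 | ⟨h1, h2⟩)
        · exact ⟨Or.inl h1, h j h1 i hi⟩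
        · exact ⟨Or.inr h1, h2⟩
    have h2 : Disjoint S (T.filter (· < i)) :=
      Finset.disjoint_of_subset_right (Finset.filter_subset _ _) hd
    rw [h1, Finset.card_union_of_disjoint h2, pow_add, mul_assoc]

lemma altS_singleton {g : L → ℝ} (a : L) : altS g {a} = g a := by
  unfold altS
  rw [Finset.sum_singleton]
  have : ({a} : Finset L).filter (· < a) = ∅ := by
    ext j
    simp only [Finset.mem_filter, Finset.mem_singleton, Finset.notMem_empty, iff_false, not_and]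
    rintro rfl
    exact lt_irrefl _
  rw [this]
  simp

lemma altS_anti (g : L → ℝ) (S : Finset L) :
    (∀ a ∈ S, ∀ b ∈ S, a ≤ b → g b ≤ g a) → (∀ a ∈ S, 0 ≤ g a) →
      ∀ M : ℝ, 0 ≤ M → (∀ a ∈ S, g a ≤ M) → 0 ≤ altS g S ∧ altS g S ≤ M := by
  induction S using Finset.induction_on_min with
  | empty =>
    intro _ _ M hM _
    simp [altS, hM]
  | insert a S ha ih =>
    intro hg h0 M hM hgM
    have e : insert a S = {a} ∪ S := rfl
    rw [e, altS_union (by
      intro x hx y hy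
      rw [Finset.mem_singleton] at hx
      subst hx
      exact ha y hy), altS_singleton]
    have h1 := ih (fun x hx y hy => hg x (Finset.mem_insert_of_mem hx) y
      (Finset.mem_insert_of_mem hy)) (fun x hx => h0 x (Finset.mem_insert_of_mem hx)) (g a)
      (h0 a (Finset.mem_insert_self _ _)) (fun x hx => hg a (Finset.mem_insert_self _ _) x
        (Finset.mem_insert_of_mem hx) (ha x hx).le)
    have h2 := hgM a (Finset.mem_insert_self _ _)
    simp only [Finset.card_singleton, pow_one]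
    constructor <;> linarith [h1.1, h1.2]

lemma altS_mono (g : L → ℝ) (S : Finset L) :
    (∀ a ∈ S, ∀ b ∈ S, a ≤ b → g a ≤ g b) → (∀ a ∈ S, 0 ≤ g a) →
      ∀ M : ℝ, 0 ≤ M → (∀ a ∈ S, g a ≤ M) →
        0 ≤ (-1) ^ (S.card + 1) * altS g S ∧ (-1) ^ (S.card + 1) * altS g S ≤ M := by
  induction S using Finset.induction_on_max with
  | empty =>
    intro _ _ M hM _
    simp [altS, hM]
  | insert a S ha ih =>
    intro hg h0 M hM hgM
    have hna : a ∉ S := fun h => lt_irrefl _ (ha a h)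
    have e : insert a S = S ∪ {a} := by
      rw [Finset.union_comm]; rfl
    have hc : (insert a S).card = S.card + 1 := Finset.card_insert_of_notMem hna
    rw [hc, e, altS_union (by
      intro x hx y hy
      rw [Finset.mem_singleton] at hy
      subst hy
      exact ha x hx), altS_singleton]
    have h1 := ih (fun x hx y hy => hg x (Finset.mem_insert_of_mem hx) y
      (Finset.mem_insert_of_mem hy)) (fun x hx => h0 x (Finset.mem_insert_of_mem hx)) (g a)
      (h0 a (Finset.mem_insert_self _ _)) (fun x hx => hg x (Finset.mem_insert_of_mem hx) a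
        (Finset.mem_insert_self _ _) (ha x hx).le)
    have h2 := hgM a (Finset.mem_insert_self _ _)
    have h3 : (-1 : ℝ) ^ (S.card + 1 + 1) * (altS g S + (-1) ^ S.card * g a) =
        g a - (-1) ^ (S.card + 1) * altS g S := by
      have h4 : (-1 : ℝ) ^ S.card * (-1) ^ S.card = 1 := by
        rw [← mul_pow]; simp
      have h5 : (-1 : ℝ) ^ (S.card + 1 + 1) = (-1) ^ S.card := by
        rw [pow_succ, pow_succ]; ring
      rw [h5, pow_succ]
      linear_combination g a * h4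
    rw [h3]
    constructor <;> linarith [h1.1, h1.2]

lemma abs_altS_anti {g : L → ℝ} {S : Finset L} (hg : ∀ a ∈ S, ∀ b ∈ S, a ≤ b → g b ≤ g a)
    (h0 : ∀ a ∈ S, 0 ≤ g a) {M : ℝ} (hM : 0 ≤ M) (hb : ∀ a ∈ S, g a ≤ M) : |altS g S| ≤ M := by
  have := altS_anti g S hg h0 M hM hb
  rw [abs_of_nonneg this.1]
  exact this.2

lemma abs_altS_mono {g : L → ℝ} {S : Finset L} (hg : ∀ a ∈ S, ∀ b ∈ S, a ≤ b → g a ≤ g b)
    (h0 : ∀ a ∈ S, 0 ≤ g a) {M : ℝ} (hM : 0 ≤ M) (hb : ∀ a ∈ S, g a ≤ M) : |altS g S| ≤ M := by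
  have := altS_mono g S hg h0 M hM hb
  have h2 : |(-1 : ℝ) ^ (S.card + 1) * altS g S| = |altS g S| := by
    rw [abs_mul, abs_pow]; simp
  rw [← h2, abs_of_nonneg this.1]
  exact this.2

lemma abs_altS_union {g : L → ℝ} {S T : Finset L} (h : ∀ a ∈ S, ∀ b ∈ T, a < b) :
    |altS g (S ∪ T)| ≤ |altS g S| + |altS g T| := by
  rw [altS_union h]
  refine (abs_add_le _ _).trans ?_
  rw [abs_mul, abs_pow]
  simp

end alt

/-- Splitting the alternating sum at a threshold of the first coordinate. -/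
lemma abs_altS_cut {g : ℝ ×ₗ ℕ → ℝ} (S : Finset (ℝ ×ₗ ℕ)) (t : ℝ) :
    |altS g S| ≤ |altS g (S.filter fun p => (ofLex p).1 ≤ t)| +
      |altS g (S.filter fun p => ¬ (ofLex p).1 ≤ t)| := by
  conv_lhs => rw [← Finset.filter_union_filter_not_eq (fun p => (ofLex p).1 ≤ t) S]
  refine abs_altS_union ?_
  intro a ha b hb
  simp only [Finset.mem_filter] at ha hb
  rw [Prod.Lex.lt_iff]
  left
  exact lt_of_le_of_lt ha.2 (not_le.mp hb.2)

/-- The model kernel. -/
noncomputable def Gk (x y u : ℝ) : ℝ := x * y / ((x + y) ^ 2 + u)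

lemma Gk_nonneg {x y u : ℝ} (hx : 0 < x) (hy : 0 < y) (hu : 0 ≤ u) : 0 ≤ Gk x y u := by
  unfold Gk; positivity

lemma Gk_anti {x y u v : ℝ} (hx : 0 < x) (hy : 0 < y) (hu : 0 ≤ u) (h : u ≤ v) :
    Gk x y v ≤ Gk x y u := by
  unfold Gk
  apply div_le_div_of_nonneg_left (by positivity) (by positivity)
  linarith

/-- Alternating sums of the model kernel are bounded by four times its maximum. -/
lemma abs_altS_Gk {x y φ : ℝ} (hx : 0 < x) (hy : 0 < y) (hφ : φ ∈ Set.Ioc (-Real.pi) Real.pi)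
    (S : Finset (ℝ ×ₗ ℕ)) (hS : ∀ p ∈ S, (ofLex p).1 ∈ Set.Ioc (-Real.pi) Real.pi) :
    |altS (fun p => Gk x y (1 - Real.cos ((ofLex p).1 - φ))) S| ≤ 4 * Gk x y 0 := by
  set g : ℝ ×ₗ ℕ → ℝ := fun p => Gk x y (1 - Real.cos ((ofLex p).1 - φ)) with hg
  have hu : ∀ p : ℝ ×ₗ ℕ, 0 ≤ 1 - Real.cos ((ofLex p).1 - φ) := fun p => by
    linarith [Real.cos_le_one ((ofLex p).1 - φ)]
  have g0 : ∀ p, 0 ≤ g p := fun p => Gk_nonneg hx hy (hu p)
  have gM : ∀ p, g p ≤ Gk x y 0 := fun p => Gk_anti hx hy le_rfl (hu p)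
  have M0 : 0 ≤ Gk x y 0 := Gk_nonneg hx hy le_rfl
  have hle : ∀ a b : ℝ ×ₗ ℕ, a ≤ b → (ofLex a).1 ≤ (ofLex b).1 := fun a b hab => by
    rcases Prod.Lex.le_iff.mp hab with h | h
    · exact h.le
    · exact h.1.le
  have key1 : ∀ P : Finset (ℝ ×ₗ ℕ), (∀ a ∈ P, ∀ b ∈ P, (ofLex a).1 ≤ (ofLex b).1 →
      Real.cos ((ofLex a).1 - φ) ≤ Real.cos ((ofLex b).1 - φ)) → |altS g P| ≤ Gk x y 0 := by
    intro P hP
    refine abs_altS_mono (fun a ha b hb hab => ?_) (fun a _ => g0 a) M0 (fun a _ => gM a)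
    exact Gk_anti hx hy (hu b) (by linarith [hP a ha b hb (hle a b hab)])
  have key2 : ∀ P : Finset (ℝ ×ₗ ℕ), (∀ a ∈ P, ∀ b ∈ P, (ofLex a).1 ≤ (ofLex b).1 →
      Real.cos ((ofLex b).1 - φ) ≤ Real.cos ((ofLex a).1 - φ)) → |altS g P| ≤ Gk x y 0 := by
    intro P hP
    refine abs_altS_anti (fun a ha b hb hab => ?_) (fun a _ => g0 a) M0 (fun a _ => gM a)
    exact Gk_anti hx hy (hu a) (by linarith [hP a ha b hb (hle a b hab)])
  have hpi := Real.pi_pos
  have c1 := abs_altS_cut (g := g) S φ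
  have c2 := abs_altS_cut (g := g) (S.filter fun p => (ofLex p).1 ≤ φ) (φ - Real.pi)
  have c3 := abs_altS_cut (g := g) (S.filter fun p => ¬ (ofLex p).1 ≤ φ) (φ + Real.pi)
  have d1 := key2 ((S.filter fun p => (ofLex p).1 ≤ φ).filter
      fun p => (ofLex p).1 ≤ φ - Real.pi) (by
    intro a ha b hb hab
    simp only [Finset.mem_filter] at ha hb
    have ha' := hS a ha.1.1
    have hb' := hS b hb.1.1
    rw [← Real.cos_add_two_pi ((ofLex a).1 - φ), ← Real.cos_add_two_pi ((ofLex b).1 - φ)]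
    apply Real.strictAntiOn_cos.antitoneOn
    · constructor <;> linarith [ha'.1, ha'.2, hφ.1, hφ.2, ha.2]
    · constructor <;> linarith [hb'.1, hb'.2, hφ.1, hφ.2, hb.2]
    · linarith)
  have d2 := key1 ((S.filter fun p => (ofLex p).1 ≤ φ).filter
      fun p => ¬ (ofLex p).1 ≤ φ - Real.pi) (by
    intro a ha b hb hab
    simp only [Finset.mem_filter, not_le] at ha hb
    rw [← Real.cos_neg ((ofLex a).1 - φ), ← Real.cos_neg ((ofLex b).1 - φ)]
    apply Real.strictAntiOn_cos.antitoneOn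
    · constructor <;> linarith [ha.1.2, ha.2, hb.1.2, hb.2]
    · constructor <;> linarith [ha.1.2, ha.2, hb.1.2, hb.2]
    · linarith)
  have d3 := key2 ((S.filter fun p => ¬ (ofLex p).1 ≤ φ).filter
      fun p => (ofLex p).1 ≤ φ + Real.pi) (by
    intro a ha b hb hab
    simp only [Finset.mem_filter, not_le] at ha hb
    apply Real.strictAntiOn_cos.antitoneOn
    · constructor <;> linarith [ha.1.2, ha.2, hb.1.2, hb.2]
    · constructor <;> linarith [ha.1.2, ha.2, hb.1.2, hb.2]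
    · linarith)
  have d4 := key1 ((S.filter fun p => ¬ (ofLex p).1 ≤ φ).filter
      fun p => ¬ (ofLex p).1 ≤ φ + Real.pi) (by
    intro a ha b hb hab
    simp only [Finset.mem_filter, not_le] at ha hb
    have ha' := hS a ha.1.1
    have hb' := hS b hb.1.1
    rw [← Real.cos_two_pi_sub ((ofLex a).1 - φ), ← Real.cos_two_pi_sub ((ofLex b).1 - φ)]
    apply Real.strictAntiOn_cos.antitoneOn
    · constructor <;> linarith [hb'.1, hb'.2, hφ.1, hφ.2, hb.2]
    · constructor <;> linarith [ha'.1, ha'.2, hφ.1, hφ.2, ha.2]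
    · linarith)
  linarith

lemma norm_sq_eq (z a : ℂ) : ‖1 - conj a * z‖ ^ 2 =
    (1 - ‖a‖ * ‖z‖) ^ 2 + 2 * (‖a‖ * ‖z‖) * (1 - Real.cos (arg a - arg z)) := by
  have h1 : ‖a‖ * Real.cos (arg a) = a.re := Complex.norm_mul_cos_arg a
  have h2 : ‖a‖ * Real.sin (arg a) = a.im := Complex.norm_mul_sin_arg a
  have h3 : ‖z‖ * Real.cos (arg z) = z.re := Complex.norm_mul_cos_arg z
  have h4 : ‖z‖ * Real.sin (arg z) = z.im := Complex.norm_mul_sin_arg z
  have h5 : ‖a‖ ^ 2 = a.re ^ 2 + a.im ^ 2 := by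
    rw [← Complex.normSq_eq_norm_sq, Complex.normSq_apply]; ring
  have h6 : ‖z‖ ^ 2 = z.re ^ 2 + z.im ^ 2 := by
    rw [← Complex.normSq_eq_norm_sq, Complex.normSq_apply]; ring
  rw [← Complex.normSq_eq_norm_sq, Complex.normSq_apply, Real.cos_sub]
  simp only [Complex.sub_re, Complex.one_re, Complex.mul_re, Complex.conj_re, Complex.conj_im,
    Complex.sub_im, Complex.one_im, Complex.mul_im]
  have h7 : ‖a‖ * ‖z‖ * (Real.cos (arg a) * Real.cos (arg z) + Real.sin (arg a) * Real.sin (arg z))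
      = a.re * z.re + a.im * z.im := by
    rw [← h1, ← h2, ← h3, ← h4]; ring
  have h8 : (‖a‖ * ‖z‖) ^ 2 = (a.re ^ 2 + a.im ^ 2) * (z.re ^ 2 + z.im ^ 2) := by
    rw [mul_pow, h5, h6]
  linear_combination (-1) * h8 + 2 * h7

lemma Ke_nonneg' {z a : ℂ} (hz : ‖z‖ < 1) (ha : ‖a‖ < 1) : 0 ≤ Ke z a := by
  unfold Ke
  have h1 : 0 ≤ 1 - ‖z‖ ^ 2 := by nlinarith [norm_nonneg z]
  have h2 : 0 ≤ 1 - ‖a‖ ^ 2 := by nlinarith [norm_nonneg a]
  positivity

lemma den_lower {z a : ℂ} (hz : ‖z‖ < 1) (ha : ‖a‖ < 1) :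
    (1 - ‖z‖) ^ 2 ≤ ‖1 - conj a * z‖ ^ 2 := by
  have h0 := norm_nonneg z
  have h1 := norm_nonneg a
  have h2 : 1 - ‖z‖ ≤ ‖1 - conj a * z‖ := by
    have h3 : ‖(1:ℂ)‖ - ‖conj a * z‖ ≤ ‖1 - conj a * z‖ := norm_sub_norm_le _ _
    rw [norm_one, norm_mul, RCLike.norm_conj] at h3
    nlinarith
  exact pow_le_pow_left₀ (by linarith) h2 2

lemma Ke_le_one' {z a : ℂ} (hz : ‖z‖ < 1) (ha : ‖a‖ < 1) : Ke z a ≤ 1 := by
  unfold Ke
  have h0 := norm_nonneg z
  have h1 := norm_nonneg a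
  have h2 : 0 < ‖1 - conj a * z‖ ^ 2 := by
    refine lt_of_lt_of_le ?_ (den_lower hz ha)
    have : 0 < 1 - ‖z‖ := by linarith
    positivity
  rw [div_le_one h2, norm_sq_eq]
  have h3 : 0 ≤ 2 * (‖a‖ * ‖z‖) * (1 - Real.cos (arg a - arg z)) := by
    have := Real.cos_le_one (arg a - arg z)
    have h4 : 0 ≤ 1 - Real.cos (arg a - arg z) := by linarith
    positivity
  nlinarith [sq_nonneg (‖a‖ - ‖z‖)]

lemma Ke_le_mul {z a : ℂ} (hz : ‖z‖ < 1) (ha : ‖a‖ < 1) :
    Ke z a ≤ 2 / (1 - ‖z‖) ^ 2 * (1 - ‖a‖) := by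
  unfold Ke
  have h0 := norm_nonneg z
  have h1 := norm_nonneg a
  have h2 : 0 < (1 - ‖z‖) ^ 2 := by
    have : 0 < 1 - ‖z‖ := by linarith
    positivity
  have h3 : (1 - ‖z‖ ^ 2) * (1 - ‖a‖ ^ 2) ≤ 2 * (1 - ‖a‖) := by
    have e1 : 1 - ‖z‖ ^ 2 ≤ 1 := by nlinarith
    have e2 : 1 - ‖a‖ ^ 2 ≤ 2 * (1 - ‖a‖) := by nlinarith
    have e3 : 0 ≤ 1 - ‖a‖ ^ 2 := by nlinarith
    calc (1 - ‖z‖ ^ 2) * (1 - ‖a‖ ^ 2) ≤ 1 * (1 - ‖a‖ ^ 2) := mul_le_mul_of_nonneg_right e1 e3
      _ ≤ 2 * (1 - ‖a‖) := by linarith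
  have h4 : 0 ≤ 2 * (1 - ‖a‖) := by linarith
  calc (1 - ‖z‖ ^ 2) * (1 - ‖a‖ ^ 2) / ‖1 - conj a * z‖ ^ 2
      ≤ 2 * (1 - ‖a‖) / ‖1 - conj a * z‖ ^ 2 := by
        apply div_le_div_of_nonneg_right h3 (by positivity)
    _ ≤ 2 * (1 - ‖a‖) / (1 - ‖z‖) ^ 2 :=
        div_le_div_of_nonneg_left h4 h2 (den_lower hz ha)
    _ = 2 / (1 - ‖z‖) ^ 2 * (1 - ‖a‖) := by ring

lemma Ke_bounds {z a : ℂ} {x : ℝ} (hz : ‖z‖ < 1) (h1 : x / 2 < 1 - ‖a‖) (h2 : 1 - ‖a‖ ≤ x)
    (hx : 0 < x) (hx2 : x ≤ 1 / 2) :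
    Gk x (1 - ‖z‖) (1 - Real.cos (arg a - arg z)) / 4 ≤ Ke z a ∧
      Ke z a ≤ 144 * Gk x (1 - ‖z‖) (1 - Real.cos (arg a - arg z)) := by
  have hR := norm_nonneg z
  have ha : ‖a‖ < 1 := by linarith
  have hu0 : 0 ≤ 1 - Real.cos (arg a - arg z) := by
    linarith [Real.cos_le_one (arg a - arg z)]
  have hu2 : 1 - Real.cos (arg a - arg z) ≤ 2 := by
    linarith [Real.neg_one_le_cos (arg a - arg z)]
  unfold Ke Gk
  rw [norm_sq_eq]
  set u := 1 - Real.cos (arg a - arg z) with hu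
  set R := ‖z‖ with hRdef
  set r := ‖a‖ with hrdef
  have hr : 1 / 2 ≤ r := by linarith
  have hy : 0 < 1 - R := by linarith
  have hh : 0 < (x + (1 - R)) ^ 2 + u := by positivity
  have hrR : 0 ≤ r * R := by positivity
  have hlow : x + (1 - R) ≤ 2 * (1 - r * R) := by nlinarith
  have hup : 1 - r * R ≤ x + (1 - R) := by nlinarith
  have hpos : 0 < 1 - r * R := by nlinarith
  have hD1 : (1 - r * R) ^ 2 + 2 * (r * R) * u ≤ 2 * ((x + (1 - R)) ^ 2 + u) := by
    have e1 : (1 - r * R) ^ 2 ≤ (x + (1 - R)) ^ 2 := pow_le_pow_left₀ hpos.le hup 2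
    have e2 : r * R * u ≤ 1 * u := mul_le_mul_of_nonneg_right (by linarith) hu0
    linarith [sq_nonneg (x + (1 - R))]
  have hD2 : (x + (1 - R)) ^ 2 + u ≤ 36 * ((1 - r * R) ^ 2 + 2 * (r * R) * u) := by
    have e1 : (x + (1 - R)) ^ 2 ≤ 4 * (1 - r * R) ^ 2 := by
      have := pow_le_pow_left₀ (by linarith : 0 ≤ x + (1 - R)) hlow 2
      rw [mul_pow] at this
      linarith
    rcases le_or_gt (1 / 2) R with h | h
    · have e2 : 1 / 4 ≤ r * R := by
        have := mul_le_mul hr h (by norm_num) (by linarith : 0 ≤ r)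
        linarith
      have e5 : 1 / 4 * u ≤ r * R * u := mul_le_mul_of_nonneg_right e2 hu0
      linarith [sq_nonneg (1 - r * R)]
    · have e3 : (1 / 2) ^ 2 ≤ (x + (1 - R)) ^ 2 :=
        pow_le_pow_left₀ (by norm_num) (by linarith) 2
      have e4 : 0 ≤ 2 * (r * R) * u := by positivity
      linarith
  have hD0 : 0 < (1 - r * R) ^ 2 + 2 * (r * R) * u := by positivity
  have f1 : 1 - R ≤ 1 - R ^ 2 := by nlinarith
  have f2 : x / 2 ≤ 1 - r ^ 2 := by nlinarith
  have f3 : 1 - R ^ 2 ≤ 2 * (1 - R) := by nlinarith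
  have f4 : 1 - r ^ 2 ≤ 2 * x := by nlinarith
  have hN1 : x * (1 - R) / 2 ≤ (1 - R ^ 2) * (1 - r ^ 2) := by
    have := mul_le_mul f1 f2 (by positivity) (by linarith)
    linarith
  have hN2 : (1 - R ^ 2) * (1 - r ^ 2) ≤ 4 * (x * (1 - R)) := by
    have := mul_le_mul f3 f4 (by linarith) (by linarith)
    linarith
  have hxy : 0 < x * (1 - R) := by positivity
  have hN0 : 0 ≤ (1 - R ^ 2) * (1 - r ^ 2) := by linarith
  constructor
  · rw [div_div, div_le_div_iff₀ (by positivity) hD0]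
    have := mul_le_mul hN1 hD1 hD0.le hN0
    linarith
  · rw [← mul_div_assoc, div_le_div_iff₀ hD0 hh]
    have := mul_le_mul hN2 hD2 hh.le (by linarith : (0:ℝ) ≤ 4 * (x * (1 - R)))
    linarith

/-- Telescoping bound for the maximum of the model kernel on a strip. -/
lemma Gk_zero_le {x y : ℝ} (hx : 0 < x) (hy : 0 < y) :
    Gk x y 0 / 2 ≤ y / (x / 2 + y) - y / (x + y) := by
  unfold Gk
  have h1 : 0 < x / 2 + y := by positivity
  have h2 : 0 < x + y := by positivity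
  rw [add_zero, div_sub_div _ _ h1.ne' h2.ne', div_div, div_le_div_iff₀ (by positivity)
    (by positivity)]
  have h3 : y * (x + y) - (x / 2 + y) * y = x * y / 2 := by ring
  rw [h3]
  have h4 : x / 2 + y ≤ x + y := by linarith
  have h5 : 0 ≤ x * y * (x + y) := by positivity
  nlinarith [mul_le_mul_of_nonneg_left h4 h5]

/-- The sorting key. -/
noncomputable def key (s : ℕ → ℂ) (i : ℕ) : ℝ ×ₗ ℕ := toLex (arg (s i), i)

lemma key_inj (s : ℕ → ℂ) : Function.Injective (key s) := by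
  intro i j h
  have : ofLex (key s i) = ofLex (key s j) := by rw [h]
  simpa [key] using congrArg Prod.snd this

/-- Position parity. -/
def ev (s : ℕ → ℂ) (F : Finset ℕ) (i : ℕ) : Prop :=
  Even (((F.image (key s)).filter (· < key s i)).card)

open Classical in
lemma strip_ineq {s : ℕ → ℂ} {F : Finset ℕ} {x : ℝ} (hx : 0 < x) (hx2 : x ≤ 1 / 2)
    (h1 : ∀ i ∈ F, x / 2 < 1 - ‖s i‖) (h2 : ∀ i ∈ F, 1 - ‖s i‖ ≤ x) {z : ℂ} (hz : ‖z‖ < 1) :
    1 / 1152 * ∑ i ∈ F, Ke z (s i) - Gk x (1 - ‖z‖) 0 / 2 ≤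
      ∑ i ∈ F.filter (fun i => ev s F i), Ke z (s i) ∧
    1 / 1152 * ∑ i ∈ F, Ke z (s i) - Gk x (1 - ‖z‖) 0 / 2 ≤
      ∑ i ∈ F.filter (fun i => ¬ ev s F i), Ke z (s i) := by
  set g : ℕ → ℝ := fun i => Gk x (1 - ‖z‖) (1 - Real.cos (arg (s i) - arg z)) with hg
  have hy : 0 < 1 - ‖z‖ := by linarith
  have halt := abs_altS_Gk (x := x) (y := 1 - ‖z‖) (φ := arg z) hx hy
    (Complex.arg_mem_Ioc z) (F.image (key s)) (by
      intro p hp
      rw [Finset.mem_image] at hp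
      obtain ⟨i, -, rfl⟩ := hp
      exact Complex.arg_mem_Ioc (s i))
  have e1 : altS (fun p => Gk x (1 - ‖z‖) (1 - Real.cos ((ofLex p).1 - arg z)))
      (F.image (key s)) = ∑ i ∈ F.filter (fun i => ev s F i), g i -
        ∑ i ∈ F.filter (fun i => ¬ ev s F i), g i := by
    unfold altS
    rw [Finset.sum_image (fun a _ b _ h => key_inj s h),
      ← Finset.sum_filter_add_sum_filter_not F (fun i => ev s F i)]
    have a1 : ∑ i ∈ F.filter (fun i => ev s F i),
        (-1 : ℝ) ^ ((F.image (key s)).filter (· < key s i)).card * Gk x (1 - ‖z‖)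
          (1 - Real.cos ((ofLex (key s i)).1 - arg z)) =
        ∑ i ∈ F.filter (fun i => ev s F i), g i := by
      refine Finset.sum_congr rfl fun i hi => ?_
      rw [Finset.mem_filter] at hi
      have h3 : Even (((F.image (key s)).filter (· < key s i)).card) := hi.2
      rw [h3.neg_one_pow, one_mul]
      rfl
    have a2 : ∑ i ∈ F.filter (fun i => ¬ ev s F i),
        (-1 : ℝ) ^ ((F.image (key s)).filter (· < key s i)).card * Gk x (1 - ‖z‖)
          (1 - Real.cos ((ofLex (key s i)).1 - arg z)) =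
        - ∑ i ∈ F.filter (fun i => ¬ ev s F i), g i := by
      rw [← Finset.sum_neg_distrib]
      refine Finset.sum_congr rfl fun i hi => ?_
      rw [Finset.mem_filter] at hi
      have h3 : ¬ Even (((F.image (key s)).filter (· < key s i)).card) := hi.2
      rw [Nat.not_even_iff_odd] at h3
      rw [h3.neg_one_pow, neg_one_mul]
      rfl
    rw [a1, a2, sub_eq_add_neg]
  rw [e1] at halt
  have e2 := Finset.sum_filter_add_sum_filter_not F (fun i => ev s F i) g
  have e3 : ∑ i ∈ F, Ke z (s i) ≤ 144 * ∑ i ∈ F, g i := by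
    rw [Finset.mul_sum]
    exact Finset.sum_le_sum fun i hi => (Ke_bounds hz (h1 i hi) (h2 i hi) hx hx2).2
  have e4 : (∑ i ∈ F.filter (fun i => ev s F i), g i) / 4 ≤
      ∑ i ∈ F.filter (fun i => ev s F i), Ke z (s i) := by
    rw [Finset.sum_div]
    exact Finset.sum_le_sum fun i hi => (Ke_bounds hz (h1 i (Finset.mem_filter.mp hi).1)
      (h2 i (Finset.mem_filter.mp hi).1) hx hx2).1
  have e5 : (∑ i ∈ F.filter (fun i => ¬ ev s F i), g i) / 4 ≤
      ∑ i ∈ F.filter (fun i => ¬ ev s F i), Ke z (s i) := by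
    rw [Finset.sum_div]
    exact Finset.sum_le_sum fun i hi => (Ke_bounds hz (h1 i (Finset.mem_filter.mp hi).1)
      (h2 i (Finset.mem_filter.mp hi).1) hx hx2).1
  rw [abs_le] at halt
  constructor <;> linarith [halt.1, halt.2]

end SplitAux

open SplitAux

theorem split {s : ℕ → ℂ} {A : Set ℕ} (h : BlData s (ind A)) :
    ∃ A' ⊆ A, ∃ c > (0:ℝ), ∃ C : ℝ, ∀ z : ℂ, ‖z‖ < 1 →
      c * (∑' i, (ind A i : ℝ) * Ke z (s i)) - C ≤ ∑' i, (ind A' i : ℝ) * Ke z (s i) ∧
      c * (∑' i, (ind A i : ℝ) * Ke z (s i)) - C ≤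
        ∑' i, (ind (A \ A') i : ℝ) * Ke z (s i) := by
  classical
  obtain ⟨hs, hsum⟩ := h
  have hex : ∀ i, ∃ n : ℕ, (1 / 2 : ℝ) ^ (n + 1) < 1 - ‖s i‖ := fun i => by
    have h0 : 0 < 1 - ‖s i‖ := by linarith [hs i]
    obtain ⟨n, hn⟩ := exists_pow_lt_of_lt_one h0 (by norm_num : (1 / 2 : ℝ) < 1)
    exact ⟨n, lt_of_le_of_lt (pow_le_pow_of_le_one (by norm_num) (by norm_num)
      (Nat.le_succ n)) hn⟩
  set ν : ℕ → ℕ := fun i => Nat.find (hex i) with hν
  have hν1 : ∀ i, (1 / 2 : ℝ) ^ (ν i + 1) < 1 - ‖s i‖ := fun i => Nat.find_spec (hex i)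
  have hν2 : ∀ i, 1 - ‖s i‖ ≤ (1 / 2 : ℝ) ^ (ν i) := by
    intro i
    rcases Nat.eq_zero_or_pos (ν i) with h0 | h0
    · rw [h0]; simp
    · obtain ⟨m, hm⟩ := Nat.exists_eq_succ_of_ne_zero h0.ne'
      have h3 := Nat.find_min (hex i) (m := m) (by
        have : m < ν i := by omega
        exact this)
      rw [hm]
      exact not_lt.mp h3
  have hfin : ∀ n, {i | i ∈ A ∧ ν i = n}.Finite := by
    intro n
    have h1 := hsum.tendsto_cofinite_zero
    have h2 : ∀ᶠ i in cofinite, (ind A i : ℝ) * (1 - ‖s i‖) < (1 / 2) ^ (n + 1) :=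
      h1.eventually_lt_const (by positivity)
    rw [Filter.eventually_cofinite] at h2
    refine h2.subset ?_
    rintro i ⟨hi, rfl⟩
    have h4 := (hν1 i).le
    simp only [Set.mem_ofPred_eq, ind, Set.indicator_of_mem hi, not_lt]
    simpa using h4
  set F : ℕ → Finset ℕ := fun n => (hfin n).toFinset with hF
  have hmF : ∀ n i, i ∈ F n ↔ i ∈ A ∧ ν i = n := fun n i => by simp [hF]
  have glue : ∀ (z : ℂ), ‖z‖ < 1 → ∀ B : Set ℕ, B ⊆ A → (∀ n, 1 ≤ n →
      1 / 1152 * ∑ i ∈ F n, Ke z (s i) - Gk ((1 / 2) ^ n) (1 - ‖z‖) 0 / 2 ≤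
        ∑ i ∈ (F n).filter (fun i => i ∈ B), Ke z (s i)) →
      1 / 1152 * (∑' i, (ind A i : ℝ) * Ke z (s i)) - ((F 0).card + 1) ≤
        ∑' i, (ind B i : ℝ) * Ke z (s i) := by
    intro z hz B hBA hB
    have hy : 0 < 1 - ‖z‖ := by linarith
    have hK0 : ∀ i, 0 ≤ Ke z (s i) := fun i => Ke_nonneg' hz (hs i)
    have hindBA : ∀ i, (ind B i : ℝ) ≤ ind A i := by
      intro i
      by_cases hi : i ∈ B
      · simp [ind, hi, hBA hi]
      · simp [ind, hi]
    have hsB : Summable fun i => (ind B i : ℝ) * Ke z (s i) := by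
      refine Summable.of_nonneg_of_le (fun i => mul_nonneg (Nat.cast_nonneg _) (hK0 i))
        (fun i => ?_) (hsum.mul_left (2 / (1 - ‖z‖) ^ 2))
      calc (ind B i : ℝ) * Ke z (s i) ≤ (ind A i : ℝ) * Ke z (s i) :=
            mul_le_mul_of_nonneg_right (hindBA i) (hK0 i)
        _ ≤ (ind A i : ℝ) * (2 / (1 - ‖z‖) ^ 2 * (1 - ‖s i‖)) :=
            mul_le_mul_of_nonneg_left (Ke_le_mul hz (hs i)) (Nat.cast_nonneg _)
        _ = _ := by ring
    have hsA : Summable fun i => (ind A i : ℝ) * Ke z (s i) := by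
      refine Summable.of_nonneg_of_le (fun i => mul_nonneg (Nat.cast_nonneg _) (hK0 i))
        (fun i => ?_) (hsum.mul_left (2 / (1 - ‖z‖) ^ 2))
      calc (ind A i : ℝ) * Ke z (s i)
          ≤ (ind A i : ℝ) * (2 / (1 - ‖z‖) ^ 2 * (1 - ‖s i‖)) :=
            mul_le_mul_of_nonneg_left (Ke_le_mul hz (hs i)) (Nat.cast_nonneg _)
        _ = _ := by ring
    set T' := ∑' i, (ind B i : ℝ) * Ke z (s i) with hT'
    have hdis : ∀ N : ℕ, ((Finset.range N : Finset ℕ) : Set ℕ).PairwiseDisjoint F := by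
      intro N a _ b _ hab
      rw [Function.onFun, Finset.disjoint_left]
      intro i hi hj
      exact hab (((hmF a i).mp hi).2.symm.trans ((hmF b i).mp hj).2)
    set f : ℕ → ℝ := fun n => (1 - ‖z‖) / ((1 / 2) ^ n + (1 - ‖z‖)) with hf
    have hf01 : ∀ n, 0 ≤ f n ∧ f n ≤ 1 := by
      intro n
      have hp : (0:ℝ) < (1 / 2) ^ n := by positivity
      constructor
      · simp only [hf]; positivity
      · simp only [hf]
        rw [div_le_one (by positivity)]
        linarith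
    have hstep : ∀ n, Gk ((1 / 2) ^ n) (1 - ‖z‖) 0 / 2 ≤ f (n + 1) - f n := by
      intro n
      have := Gk_zero_le (x := (1 / 2) ^ n) (y := 1 - ‖z‖) (by positivity) hy
      simp only [hf]
      rw [pow_succ, mul_one_div]
      exact this
    have hfin2 : ∀ U : Finset ℕ, ∑ i ∈ U, (ind A i : ℝ) * Ke z (s i) ≤
        1152 * (T' + ((F 0).card + 1)) := by
      intro U
      set N := U.sup ν + 1 with hN
      have g1 : ∑ i ∈ U, (ind A i : ℝ) * Ke z (s i) ≤
          ∑ i ∈ (Finset.range N).biUnion F, Ke z (s i) := by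
        have g2 : ∑ i ∈ U, (ind A i : ℝ) * Ke z (s i) =
            ∑ i ∈ U.filter (fun i => i ∈ A), Ke z (s i) := by
          rw [Finset.sum_filter]
          refine Finset.sum_congr rfl fun i _ => ?_
          by_cases hi : i ∈ A
          · simp [ind, hi]
          · simp [ind, hi]
        rw [g2]
        refine Finset.sum_le_sum_of_subset_of_nonneg ?_ (fun i _ _ => hK0 i)
        intro i hi
        rw [Finset.mem_filter] at hi
        rw [Finset.mem_biUnion]
        refine ⟨ν i, ?_, (hmF _ _).mpr ⟨hi.2, rfl⟩⟩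
        rw [Finset.mem_range, hN]
        exact Nat.lt_succ_of_le (Finset.le_sup hi.1)
      have g3 : ∑ i ∈ (Finset.range N).biUnion (fun n => (F n).filter (fun i => i ∈ B)),
          Ke z (s i) ≤ T' := by
        have g4 : ∑ i ∈ (Finset.range N).biUnion (fun n => (F n).filter (fun i => i ∈ B)),
            Ke z (s i) = ∑ i ∈ (Finset.range N).biUnion
              (fun n => (F n).filter (fun i => i ∈ B)), (ind B i : ℝ) * Ke z (s i) := by
          refine Finset.sum_congr rfl fun i hi => ?_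
          rw [Finset.mem_biUnion] at hi
          obtain ⟨n, -, hn⟩ := hi
          have := (Finset.mem_filter.mp hn).2
          simp [ind, this]
        rw [g4]
        exact hsB.sum_le_tsum _ (fun i _ => mul_nonneg (Nat.cast_nonneg _) (hK0 i))
      rw [Finset.sum_biUnion (hdis N)] at g1
      rw [Finset.sum_biUnion (fun a ha b hb hab =>
        Finset.disjoint_of_subset_left (Finset.filter_subset _ _)
          (Finset.disjoint_of_subset_right (Finset.filter_subset _ _)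
            (hdis N ha hb hab)))] at g3
      have g5 : ∀ n, 1 / 1152 * ∑ i ∈ F n, Ke z (s i) ≤
          ∑ i ∈ (F n).filter (fun i => i ∈ B), Ke z (s i) +
            ((if n = 0 then ((F 0).card : ℝ) else 0) + (f (n + 1) - f n)) := by
        intro n
        rcases Nat.eq_zero_or_pos n with h0 | h0
        · subst h0
          have g6 : ∑ i ∈ F 0, Ke z (s i) ≤ (F 0).card := by
            calc ∑ i ∈ F 0, Ke z (s i) ≤ ∑ i ∈ F 0, (1:ℝ) :=
                  Finset.sum_le_sum fun i _ => Ke_le_one' hz (hs i)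
              _ = (F 0).card := by simp
          have g7 : 0 ≤ ∑ i ∈ (F 0).filter (fun i => i ∈ B), Ke z (s i) :=
            Finset.sum_nonneg fun i _ => hK0 i
          have g8 := hstep 0
          have g9 := Gk_nonneg (x := (1 / 2) ^ 0) (y := 1 - ‖z‖) (u := 0) (by positivity) hy
            le_rfl
          have g10 : 0 ≤ ∑ i ∈ F 0, Ke z (s i) := Finset.sum_nonneg fun i _ => hK0 i
          rw [if_pos rfl]
          linarith
        · rw [if_neg h0.ne']
          linarith [hB n h0, hstep n]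
      have g11 := Finset.sum_le_sum (fun n (_ : n ∈ Finset.range N) => g5 n)
      rw [Finset.sum_add_distrib, Finset.sum_add_distrib, Finset.sum_range_sub,
        ← Finset.mul_sum] at g11
      have g12 : ∑ n ∈ Finset.range N, (if n = 0 then ((F 0).card : ℝ) else 0) ≤
          (F 0).card := by
        rw [Finset.sum_ite_eq' (Finset.range N) 0]
        split_ifs
        · exact le_rfl
        · positivity
      have g13 := (hf01 N).2
      have g14 := (hf01 0).1
      linarith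
    have g15 : ∑' i, (ind A i : ℝ) * Ke z (s i) ≤ 1152 * (T' + ((F 0).card + 1)) :=
      hsA.tsum_le_of_sum_le hfin2
    linarith
  have hBA : ∀ n, 1 ≤ n → ∀ z : ℂ, ‖z‖ < 1 →
      1 / 1152 * ∑ i ∈ F n, Ke z (s i) - Gk ((1 / 2) ^ n) (1 - ‖z‖) 0 / 2 ≤
      ∑ i ∈ (F n).filter (fun i => ev s (F n) i), Ke z (s i) ∧
    1 / 1152 * ∑ i ∈ F n, Ke z (s i) - Gk ((1 / 2) ^ n) (1 - ‖z‖) 0 / 2 ≤
      ∑ i ∈ (F n).filter (fun i => ¬ ev s (F n) i), Ke z (s i) := by
    intro n hn z hz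
    refine strip_ineq (by positivity) ?_ ?_ ?_ hz
    · calc (1 / 2 : ℝ) ^ n ≤ (1 / 2) ^ 1 :=
            pow_le_pow_of_le_one (by norm_num) (by norm_num) hn
        _ = 1 / 2 := by norm_num
    · intro i hi
      have h1 := hν1 i
      rw [((hmF n i).mp hi).2, pow_succ, mul_one_div] at h1
      exact h1
    · intro i hi
      have h1 := hν2 i
      rw [((hmF n i).mp hi).2] at h1
      exact h1
  refine ⟨{i | i ∈ A ∧ ev s (F (ν i)) i}, fun i hi => hi.1, 1 / 1152, by norm_num,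
    (F 0).card + 1, fun z hz => ⟨?_, ?_⟩⟩
  · refine glue z hz _ (fun i hi => hi.1) (fun n hn => ?_)
    refine (hBA n hn z hz).1.trans (le_of_eq ?_)
    congr 1
    ext i
    simp only [Finset.mem_filter]
    constructor
    · rintro ⟨hi, h3⟩
      have h1 := (hmF n i).mp hi
      refine ⟨hi, h1.1, ?_⟩
      rw [h1.2]
      exact h3
    · rintro ⟨hi, -, h3⟩
      have h1 := (hmF n i).mp hi
      rw [h1.2] at h3
      exact ⟨hi, h3⟩
  · refine glue z hz _ (fun i hi => hi.1) (fun n hn => ?_)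
    refine (hBA n hn z hz).2.trans (le_of_eq ?_)
    congr 1
    ext i
    simp only [Finset.mem_filter]
    constructor
    · rintro ⟨hi, h3⟩
      have h1 := (hmF n i).mp hi
      refine ⟨hi, h1.1, ?_⟩
      rintro ⟨-, h4⟩
      rw [h1.2] at h4
      exact h3 h4
    · rintro ⟨hi, -, h3⟩
      have h1 := (hmF n i).mp hi
      refine ⟨hi, fun h4 => h3 ⟨h1.1, ?_⟩⟩
      rw [h1.2]
      exact h4

end Pool.Agent.H14.GP
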